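import Mathlib

namespace Pool.Agent.H.MP_58c1a9_gt

open ExteriorAlgebra Matrix

abbrev V := Fin 8 → ℤ

def x (i : ℕ) : ExteriorAlgebra ℤ V := ι ℤ fun k : Fin 8 => if k.val = i then 1 else 0

def w (l : List ℕ) : ExteriorAlgebra ℤ V := (l.map x).prod

def ins (i : ℕ) : List ℕ → ℤ × List ℕ
  | [] => (1, [i])
  | j :: l => if i < j then (1, i :: j :: l) else if i = j then (0, []) else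
      (-(ins i l).1, j :: (ins i l).2)

lemma x_mul (i : ℕ) (l : List ℕ) : x i * w l = (ins i l).1 • w (ins i l).2 := by
  induction l with
  | nil => simp [ins, w]
  | cons j l ih =>
    have e : w (j :: l) = x j * w l := by simp [w]
    unfold ins
    split_ifs with h1 h2
    · simp [w]
    · subst h2
      rw [e, ← mul_assoc, x, ι_sq_zero]
      simp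
    · have : x i * x j = -(x j * x i) := eq_neg_of_add_eq_zero_left (ι_add_mul_swap _ _)
      rw [e, ← mul_assoc, this, neg_mul, mul_assoc, ih]
      simp [w, -zsmul_eq_mul]

def ev (t : List (ℤ × List ℕ)) : ExteriorAlgebra ℤ V := (t.map fun p => p.1 • w p.2).sum

def mx (i : ℕ) : List (ℤ × List ℕ) → List (ℤ × List ℕ)
  | [] => []
  | p :: t => if (ins i p.2).1 = 0 then mx i t else (p.1 * (ins i p.2).1, (ins i p.2).2) :: mx i t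

lemma x_ev (i : ℕ) (t : List (ℤ × List ℕ)) : x i * ev t = ev (mx i t) := by
  induction t with
  | nil => simp [ev, mx]
  | cons p t ih =>
    have e (q : ℤ × List ℕ) (s) : ev (q :: s) = q.1 • w q.2 + ev s := by simp [ev]
    rw [e, mul_add, ih, mul_smul_comm, x_mul, mx]
    split_ifs with h
    · simp [h]
    · rw [e, smul_smul]

lemma ev_top (L : List ℕ) (t : List (ℤ × List ℕ)) (h : ∀ p ∈ t, p.2 = L) :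
    ev t = (t.map Prod.fst).sum • w L := by
  induction t with
  | nil => simp [ev]
  | cons p t ih =>
    have e : ev (p :: t) = p.1 • w p.2 + ev t := by simp [ev]
    rw [e, ih fun q hq => h q (List.mem_cons_of_mem _ hq), h p List.mem_cons_self]
    simp [add_smul]

def om : List (ℤ × List ℕ) :=
  [(1, [3, 5, 6, 7]), (1, [3, 4, 5, 6]), (1, [2, 4, 6, 7]), (-1, [2, 4, 5, 7]), (-1, [2, 3, 5, 7]), (1, [2, 3, 4, 7]), (-2, [1, 4, 5, 7]), (1, [1, 4, 5, 6]), (-1, [1, 3, 4, 6]), (-1, [1, 3, 4, 5]), (-1, [1, 2, 3, 6]), (1, [0, 4, 6, 7]), (1, [0, 3, 6, 7]), (-1, [0, 3, 5, 6]), (1, [0, 3, 4, 7]), (-1, [0, 2, 5, 6]), (-1, [0, 2, 3, 4]), (1, [0, 1, 6, 7]), (-1, [0, 1, 5, 6]), (-1, [0, 1, 4, 6]), (-1,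 [0, 1, 4, 5]), (1, [0, 1, 3, 5]), (-1, [0, 1, 2, 7]), (1, [0, 1, 2, 4])]

def pr (a : Fin 28) : ℕ × ℕ :=
  [(0, 1), (0, 2), (0, 3), (0, 4), (0, 5), (0, 6), (0, 7), (1, 2), (1, 3), (1, 4), (1, 5), (1, 6), (1, 7), (2, 3), (2, 4), (2, 5), (2, 6), (2, 7), (3, 4), (3, 5), (3, 6), (3, 7), (4, 5), (4, 6), (4, 7), (5, 6), (5, 7), (6, 7)].getD a (0, 0)

def M (L : List (List ℤ)) : Matrix (Fin 28) (Fin 28) ℤ := of fun i j => (L.getD i []).getD j 0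

def B : Matrix (Fin 28) (Fin 28) ℤ := M
  [[0, 0, 0, 0, 0, 0, 0, 0, 0, 0, 0, 0, 0, 0, -1, 0, 0, 1, 0, -1, -1, 0, 0, 1, 0, 1, 0, 0],
   [0, 0, 0, 0, 0, 0, 0, 0, 0, 1, 0, 0, -1, 0, 0, 0, 0, 0, 0, 0, 2, 1, 0, 0, 0, 0, -1, 1],
   [0, 0, 0, 0, 0, 0, 0, 0, 0, 0, 1, 1, 0, 0, 0, 0, -2, -1, 0, 0, 0, 0, 0, 0, 0, 0, 0, 0],
   [0, 0, 0, 0, 0, 0, 0, -1, 0, 0, 0, -1, 0, 0, 0, 0, 0, 0, 0, 0, 0, 0, 0, 0, 0, 0, -1, 0],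
   [0, 0, 0, 0, 0, 0, 0, 0, -1, 0, 0, -1, 0, 0, 0, 0, 0, 1, 0, 0, 0, 0, 0, 0, 1, 0, 0, 0],
   [0, 0, 0, 0, 0, 0, 0, 0, -1, 1, 1, 0, 0, 2, 0, 0, 0, -1, 0, 0, 0, 0, 0, 0, 0, 0, 0, 0],
   [0, 0, 0, 0, 0, 0, 0, 1, 0, 0, 0, 0, 0, 1, 0, -1, 1, 0, 0, 0, 0, 0, -1, 0, 0, 0, 0, 0],
   [0, 0, 0, -1, 0, 0, 1, 0, 0, 0, 0, 0, 0, 0, 0, 0, 0, 0, 0, -1, 0, 0, 1, 0, -1, 1, 0, 0],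
   [0, 0, 0, 0, -1, -1, 0, 0, 0, 0, 0, 0, 0, 0, 0, 1, 0, 0, 0, 0, 0, 0, 0, 0, 1, 0, 0, 0],
   [0, 1, 0, 0, 0, 1, 0, 0, 0, 0, 0, 0, 0, 0, 0, -1, 0, 1, 0, 0, 0, -1, 0, 0, 0, 0, 0, 0],
   [0, 0, 1, 0, 0, 1, 0, 0, 0, 0, 0, 0, 0, -1, 1, 0, -1, 0, 0, 0, 0, 0, 0, 0, 0, 0, 0, 1],
   [0, 0, 1, -1, -1, 0, 0, 0, 0, 0, 0, 0, 0, 0, 0, 1, 0, 0, 0, 0, 0, 0, 0, 0, 0, 0, -1, 0],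
   [0, -1, 0, 0, 0, 0, 0, 0, 0, 0, 0, 0, 0, 0, -1, 0, 0, 0, 1, 0, 0, 0, 0, 0, 0, 1, 0, 0],
   [0, 0, 0, 0, 0, 2, 1, 0, 0, 0, -1, 0, 0, 0, 0, 0, 0, 0, 0, 0, 0, 0, 1, 0, -1, 0, 1, -1],
   [-1, 0, 0, 0, 0, 0, 0, 0, 0, 0, 1, 0, -1, 0, 0, 0, 0, 0, 0, -1, 0, 1, 0, 0, 0, 0, 0, -1],
   [0, 0, 0, 0, 0, 0, -1, 0, 1, -1, 0, 1, 0, 0, 0, 0, 0, 0, 1, 0, 0, -1, 0, 0, 0, 0, 0, 0],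
   [0, 0, -2, 0, 0, 0, 1, 0, 0, 0, -1, 0, 0, 0, 0, 0, 0, 0, 0, 0, 0, 1, 0, 0, 1, 0, 0, 0],
   [1, 0, -1, 0, 1, -1, 0, 0, 0, 1, 0, 0, 0, 0, 0, 0, 0, 0, -1, 1, -1, 0, 0, -1, 0, 0, 0, 0],
   [0, 0, 0, 0, 0, 0, 0, 0, 0, 0, 0, 0, 1, 0, 0, 1, 0, -1, 0, 0, 0, 0, 0, 0, 0, -1, 0, 0],
   [-1, 0, 0, 0, 0, 0, 0, -1, 0, 0, 0, 0, 0, 0, -1, 0, 0, 1, 0, 0, 0, 0, 0, 1, 0, 0, 0, -1],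
   [-1, 2, 0, 0, 0, 0, 0, 0, 0, 0, 0, 0, 0, 0, 0, 0, 0, -1, 0, 0, 0, 0, -1, 0, 0, 0, 1, 0],
   [0, 1, 0, 0, 0, 0, 0, 0, 0, -1, 0, 0, 0, 0, 1, -1, 1, 0, 0, 0, 0, 0, 0, 0, 0, -1, 0, 0],
   [0, 0, 0, 0, 0, 0, -1, 1, 0, 0, 0, 0, 0, 1, 0, 0, 0, 0, 0, 0, -1, 0, 0, 0, 0, 0, 0, 0],
   [1, 0, 0, 0, 0, 0, 0, 0, 0, 0, 0, 0, 0, 0, 0, 0, 0, -1, 0, 1, 0, 0, 0, 0, 0, 0, 0, 0],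
   [0, 0, 0, 0, 1, 0, 0, -1, 1, 0, 0, 0, 0, -1, 0, 0, 1, 0, 0, 0, 0, 0, 0, 0, 0, 0, 0, 0],
   [1, 0, 0, 0, 0, 0, 0, 1, 0, 0, 0, 0, 1, 0, 0, 0, 0, 0, -1, 0, 0, -1, 0, 0, 0, 0, 0, 0],
   [0, -1, 0, -1, 0, 0, 0, 0, 0, 0, 0, -1, 0, 1, 0, 0, 0, 0, 0, 0, 1, 0, 0, 0, 0, 0, 0, 0],
   [0, 1, 0, 0, 0, 0, 0, 0, 0, 0, 1, 0, 0, -1, -1, 0, 0, 0, 0, -1, 0, 0, 0, 0, 0, 0, 0, 0]]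

def P : Matrix (Fin 28) (Fin 28) ℤ := M
  [[0, -1, 0, 1, 1, 0, 0, 0, -1, -1, 0, 0, -1, 0, -1, 0, 0, 0, -1, 0, 0, -1, 0, 0, -1, -1, 0, 1],
   [-2, 1, -1, 1, 1, 1, 2, 1, 1, -2, 1, -1, -1, 1, 0, 2, 0, 0, 0, 1, 0, 0, 0, 0, 0, 1, 0, 1],
   [-1, 0, 0, 2, 0, -1, 2, 1, 2, -1, 3, -1, 1, 1, 0, 1, 0, 2, 0, 2, 0, 0, 1, 0, -1, 0, 0, 2],
   [2, 0, 0, -3, -1, 0, -3, -1, -2, 3, -3, 1, 0, -2, 1, -2, 0, -2, 1, -2, 0, 0, -1, 1, 1, 0, 0, -3],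
   [-4, 1, -1, 4, 2, 2, 6, 2, 3, -8, 7, -1, 0, 4, -2, 6, 1, 4, -3, 6, 0, 1, 1, -2, -2, 2, -1, 6],
   [1, 1, 1, 2, 1, 1, 3, 1, 2, -3, 3, -1, -1, 2, -1, 3, 0, 2, 0, 3, 0, 1, 0, 0, -1, 0, 0, 1],
   [-9, 1, -5, 10, 4, 6, 15, 6, 7, -19, 18, -4, -4, 8, -5, 15, 3, 8, -7, 16, -1, 0, 2, -1, -5, 3, -2, 15],
   [21, -6, 9, -26, -13, -15, -42, -17, -20, 51, -48, 11, 10, -23, 13, -42, -7, -23, 16, -44, 2, -2, -5, 3, 14, -9, 6, -37],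
   [0, 0, 0, 0, 0, 0, 0, 0, 0, 0, 0, 0, 0, 0, 0, 1, 0, 0, 0, 0, 0, 0, 0, 0, 0, 0, 0, 0],
   [0, 0, 0, 0, 0, 0, -1, 0, 0, 0, 0, 0, 0, 0, 0, 0, 0, 0, 0, 0, 0, 0, 0, 0, 0, 0, 0, 0],
   [0, 0, 1, 0, 0, 0, 0, 0, 0, 0, 0, 0, 0, 0, 0, 0, 0, 0, 0, 0, 0, 0, 0, 0, 0, 0, 0, 0],
   [0, 0, 0, 0, 0, 0, 0, 0, 0, 0, 1, 0, 0, 0, 0, 0, 0, 0, 0, 0, 0, 0, 0, 0, 0, 0, 0, 0],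
   [0, 0, 0, 1, 0, 0, 0, 0, 0, 0, 0, 0, 0, 0, 0, 0, 0, 0, 0, 0, 0, 0, 0, 0, 0, 0, 0, 0],
   [0, 0, 0, 0, 0, 0, 0, 0, 0, 0, 0, 0, 0, 0, 0, 0, 0, 0, 0, 0, 0, 0, 0, 0, 0, 0, -1, 0],
   [0, 0, 0, 0, 0, 0, 0, 0, 0, 0, 0, 0, 0, 0, 0, 0, 0, 0, 0, 1, 0, 0, 0, 0, 0, 0, 0, 0],
   [-1, 0, 0, 0, 0, 0, 0, 0, 0, 0, 0, 0, 0, 0, 0, 0, 0, 0, 0, 0, 0, 0, 0, 0, 0, 0, 0, 0],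
   [0, 0, 0, 0, 0, 0, 0, 0, 0, 0, 0, 0, 0, 0, 0, 0, 0, 0, 0, 0, 0, 0, 0, 0, 1, 0, 0, 0],
   [0, 0, 0, 0, 1, 0, 0, 0, 0, 0, 0, 0, 0, 0, 0, 0, 0, 0, 0, 0, 0, 0, 0, 0, 0, 0, 0, 0],
   [0, 1, 0, -1, 0, 0, 0, 0, 0, 0, 0, 0, 0, 0, 0, 0, 0, 0, 0, 0, 0, 0, 0, 0, 0, 0, 0, 0],
   [0, 0, 0, 0, 0, 0, 0, 0, 0, 0, 0, 0, -1, 0, 0, 0, 0, 0, 0, 0, 0, 0, 0, 0, 0, 0, 0, 0],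
   [0, 0, 0, 0, 0, 0, -1, 0, 0, 1, 0, 0, 1, 0, 0, 0, 0, 0, 0, 0, 0, 0, 0, 0, 0, 0, 0, 0],
   [0, 0, -1, 0, 0, 1, 0, 0, 0, 0, 0, 0, 0, 0, 0, 0, 0, 0, 0, 0, 0, 0, 0, 0, 0, 0, 0, 0],
   [-1, 0, -1, 0, 0, 0, 0, 0, 0, 0, 0, 0, 0, 0, 1, 0, 0, 0, 0, 0, 0, 0, 0, 0, 0, 1, 0, 0],
   [1, 0, 1, 0, 0, 0, 0, 0, 0, 0, 0, 0, -1, 0, 0, 0, 0, 0, 0, 0, 0, 0, 0, 0, 0, 0, 0, -1],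
   [0, 0, -1, 0, 0, 1, -1, 0, 0, 0, 0, 0, 1, 0, 0, 0, 0, 0, 0, 0, 0, 1, 0, 0, 0, 0, 0, 0],
   [0, 0, 1, 0, 0, -1, 0, 0, 0, 0, 0, 0, 0, 0, 0, -1, 0, 0, 0, 0, 0, 0, 1, 0, 0, 0, 0, 0],
   [0, 1, 1, -1, 0, 0, 0, 0, 0, 0, -1, 0, -1, 0, 0, 0, 0, -1, 0, 0, 0, 0, 0, 0, 1, 1, 0, -1],
   [0, -1, 1, 1, 0, -1, 0, 0, 0, 0, 0, 0, 0, 0, -1, -1, 0, 0, -1, 0, 0, -1, 1, 0, 0, -1, 0, 1]]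

def Q : Matrix (Fin 28) (Fin 28) ℤ := M
  [[0, 0, 0, 0, 0, 0, 0, 0, 0, 0, 0, 0, 0, 0, 0, -1, 0, 0, 0, 0, 0, 0, 0, 0, 0, 0, 0, 0],
   [0, 0, 0, 0, 0, 0, 0, 0, 0, 0, 0, 0, 1, 0, 0, 0, 0, 0, 1, 0, 0, 0, 0, 0, 0, 0, 0, 0],
   [0, 0, 0, 0, 0, 0, 0, 0, 0, 0, 1, 0, 0, 0, 0, 0, 0, 0, 0, 0, 0, 0, 0, 0, 0, 0, 0, 0],
   [0, 0, 0, 0, 0, 0, 0, 0, 0, 0, 0, 0, 1, 0, 0, 0, 0, 0, 0, 0, 0, 0, 0, 0, 0, 0, 0, 0],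
   [0, 0, 0, 0, 0, 0, 0, 0, 0, 0, 0, 0, 0, 0, 0, 0, 0, 1, 0, 0, 0, 0, 0, 0, 0, 0, 0, 0],
   [0, 0, 0, 0, 0, 0, 0, 0, 0, 0, 1, 0, 0, 0, 0, 0, 0, 0, 0, 0, 0, 1, 0, 0, 0, 0, 0, 0],
   [0, 0, 0, 0, 0, 0, 0, 0, 0, -1, 0, 0, 0, 0, 0, 0, 0, 0, 0, 0, 0, 0, 0, 0, 0, 0, 0, 0],
   [-1, 0, -1, -1, -1, -2, -2, -1, -1, 0, 0, 0, 0, -1, 0, -1, 0, -1, 0, 1, 0, -1, 0, 1, 1, -1, -1, 1],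
   [-1, 0, 0, 0, 0, 0, 0, 0, 0, 1, 0, 0, 0, 0, 0, 0, -1, 1, 0, 0, -1, 0, 0, 0, 0, -1, 0, 1],
   [0, 0, 0, 0, 0, 0, 0, 0, 0, -1, 0, 0, 0, 0, 0, 0, 0, 0, 0, 1, 1, 0, 0, 0, 0, 0, 0, 0],
   [0, 0, 0, 0, 0, 0, 0, 0, 0, 0, 0, 1, 0, 0, 0, 0, 0, 0, 0, 0, 0, 0, 0, 0, 0, 0, 0, 0],
   [-2, -1, -2, -1, -1, -1, -2, -1, 0, 1, 0, 1, 1, -1, 0, 0, -1, 0, 0, 1, -1, 0, 1, -1, 0, -1, -1, 2],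
   [0, 0, 0, 0, 0, 0, 0, 0, 0, 0, 0, 0, 0, 0, 0, 0, 0, 0, 0, -1, 0, 0, 0, 0, 0, 0, 0, 0],
   [-1, 1, -2, 0, 0, 1, 0, 0, -1, 0, -1, 0, -1, 0, 0, 0, 0, -1, 0, 0, 2, -1, 1, 0, -1, 1, -2, 1],
   [-1, 1, -1, 0, 0, 0, 0, 0, 0, 0, 1, 0, 0, 0, 1, -1, 0, 0, 1, 0, 0, -1, 1, 1, 0, 0, -2, 1],
   [0, 0, 0, 0, 0, 0, 0, 0, 1, 0, 0, 0, 0, 0, 0, 0, 0, 0, 0, 0, 0, 0, 0, 0, 0, 0, 0, 0],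
   [-1, 3, 0, 3, 2, 1, 2, 1, -1, 0, -1, -2, 0, 0, 0, 0, 0, 1, 0, 0, 2, -1, -2, 2, -2, 2, -3, 0],
   [1, -1, 1, 0, 0, 0, 0, 0, 0, 0, 0, -1, 0, 0, -1, 1, 1, 0, 0, 0, 0, 1, 0, 0, 0, 0, 1, -1],
   [0, 0, 0, 0, 0, 0, 0, 0, 0, 1, 0, 0, 0, 0, 0, 0, 0, 0, -1, 0, 0, 1, -1, -1, -1, 1, 0, -1],
   [0, 0, 0, 0, 0, 0, 0, 0, 0, 0, 0, 0, 0, 0, 1, 0, 0, 0, 0, 0, 0, 0, 0, 0, 0, 0, 0, 0],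
   [0, 5, 2, 6, 4, 2, 1, 1, 0, 0, 0, 0, -1, 0, 1, 0, 0, 0, 0, 2, 0, 0, -1, 1, -1, 0, -3, 3],
   [0, 0, 0, 0, 0, 0, 0, 0, 0, -1, 0, 0, 0, 0, 0, 0, 0, 0, 0, 1, 0, -1, 0, 0, 1, 0, 0, 0],
   [0, 0, 0, 0, 0, 0, 0, 0, 1, 0, 0, 0, 0, 0, 0, 0, 0, 0, 0, 0, 0, 1, 0, 0, 0, 1, 0, 0],
   [0, 0, 0, 1, 0, 1, 0, 0, 0, 0, 0, 0, 0, 0, -1, 1, 0, 0, 0, 0, 0, 0, 1, -1, 0, 0, 0, 1],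
   [0, 0, 0, 0, 0, 0, 0, 0, 0, 0, 0, 0, 0, 0, 0, 0, 1, 0, 0, 0, 0, 0, 0, 0, 0, 0, 0, 0],
   [1, -1, 1, 0, 0, 0, 0, 0, 0, 0, 0, 0, 0, 0, -1, 0, 0, 0, -1, 0, 0, 1, 0, -1, 0, 0, 2, -1],
   [0, 0, 0, 0, 0, 0, 0, 0, 0, 0, 0, 0, 0, -1, 0, 0, 0, 0, 0, 0, 0, 0, 0, 0, 0, 0, 0, 0],
   [0, 0, 0, 0, 0, 0, 0, 0, 0, 0, 1, 0, 0, 0, 0, -1, 0, 0, 0, 1, 0, 0, 0, -1, 0, 0, 0, 0]]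

def PB : Matrix (Fin 28) (Fin 28) ℤ := M
  [[0, 0, 0, 0, 0, 0, 0, -1, -2, 0, 0, -2, 0, 0, -1, 0, -2, 1, 0, 0, -2, 0, 0, 0, 0, 1, 0, 0],
   [0, 0, 0, 0, 0, 0, 0, 1, 0, 0, 0, -1, 0, 2, 2, 0, 3, -2, 0, 0, 4, 0, 0, -1, 0, -2, 0, 0],
   [0, 0, 0, 0, 0, 0, 0, 0, 1, 0, 0, -1, 0, -3, -1, 0, -2, 1, 0, 0, -2, 0, 0, -1, 0, 1, 0, 0],
   [0, 0, 0, 0, 0, 0, 0, 0, 0, 0, 0, 2, 0, 1, 0, 0, 1, 0, 0, 0, 1, 0, 0, 2, 0, 0, 0, 0],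
   [0, 0, 0, 0, 0, 0, 0, 1, 0, 0, 0, 0, 0, -1, 0, 0, 0, 0, 0, 0, 0, 0, 0, -2, 0, 0, 0, 0],
   [0, 0, 0, 0, 0, 0, 0, -1, 0, 0, 0, 1, 0, 2, 0, 0, -2, 0, 0, 0, -1, 0, 0, 2, 0, 0, 0, 0],
   [0, 0, 0, 0, 0, 0, 0, -1, 0, 0, 0, -2, 0, -1, 0, 0, 2, 0, 0, 0, -1, 0, 0, -1, 0, 0, 0, 0],
   [0, 0, 0, 0, 0, 0, 0, 0, 0, 0, 0, 0, 0, 0, 0, 0, 0, 0, 0, 0, 1, 0, 0, 0, 0, 0, 0, 0],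
   [0, 0, 0, 0, 0, 0, -1, 0, 1, -1, 0, 1, 0, 0, 0, 0, 0, 0, 1, 0, 0, -1, 0, 0, 0, 0, 0, 0],
   [0, 0, 0, 0, 0, 0, 0, -1, 0, 0, 0, 0, 0, -1, 0, 1, -1, 0, 0, 0, 0, 0, 1, 0, 0, 0, 0, 0],
   [0, 0, 0, 0, 0, 0, 0, 0, 0, 0, 1, 1, 0, 0, 0, 0, -2, -1, 0, 0, 0, 0, 0, 0, 0, 0, 0, 0],
   [0, 0, 1, 0, 0, 1, 0, 0, 0, 0, 0, 0, 0, -1, 1, 0, -1, 0, 0, 0, 0, 0, 0, 0, 0, 0, 0, 1],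
   [0, 0, 0, 0, 0, 0, 0, -1, 0, 0, 0, -1, 0, 0, 0, 0, 0, 0, 0, 0, 0, 0, 0, 0, 0, 0, -1, 0],
   [0, 1, 0, 1, 0, 0, 0, 0, 0, 0, 0, 1, 0, -1, 0, 0, 0, 0, 0, 0, -1, 0, 0, 0, 0, 0, 0, 0],
   [-1, 0, 0, 0, 0, 0, 0, -1, 0, 0, 0, 0, 0, 0, -1, 0, 0, 1, 0, 0, 0, 0, 0, 1, 0, 0, 0, -1],
   [0, 0, 0, 0, 0, 0, 0, 0, 0, 0, 0, 0, 0, 0, 1, 0, 0, -1, 0, 1, 1, 0, 0, -1, 0, -1, 0, 0],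
   [0, 0, 0, 0, 1, 0, 0, -1, 1, 0, 0, 0, 0, -1, 0, 0, 1, 0, 0, 0, 0, 0, 0, 0, 0, 0, 0, 0],
   [0, 0, 0, 0, 0, 0, 0, 0, -1, 0, 0, -1, 0, 0, 0, 0, 0, 1, 0, 0, 0, 0, 0, 0, 1, 0, 0, 0],
   [0, 0, 0, 0, 0, 0, 0, 1, 0, 1, 0, 1, -1, 0, 0, 0, 0, 0, 0, 0, 2, 1, 0, 0, 0, 0, 0, 1],
   [0, 1, 0, 0, 0, 0, 0, 0, 0, 0, 0, 0, 0, 0, 1, 0, 0, 0, -1, 0, 0, 0, 0, 0, 0, -1, 0, 0],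
   [0, 0, 0, 0, 0, 1, 0, -1, 0, 0, 0, 0, 0, -1, -1, 0, -1, 1, 1, 0, 0, -1, 1, 0, 0, 1, 0, 0],
   [0, 0, 0, 0, 0, 0, 0, 0, -1, 1, 0, -1, 0, 2, 0, 0, 2, 0, 0, 0, 0, 0, 0, 0, 0, 0, 0, 0],
   [0, 0, 0, 0, 0, 0, 0, 1, 0, 0, 0, -1, 0, 0, 1, 0, 2, 0, -1, 0, 1, 0, 0, -1, 0, -1, 0, -1],
   [0, 0, 0, 0, 0, 0, 0, 0, 0, 0, 0, 1, 0, 1, 1, 0, -2, 0, -1, 0, -1, 0, 0, 1, 0, 0, 0, 0],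
   [0, 0, 0, 0, 0, 0, 0, -1, -1, 0, 0, -1, 0, 1, 0, 0, 2, 0, 1, 0, 0, 0, 1, 0, 0, 0, 0, 0],
   [0, 0, 0, 0, 0, 0, 0, 1, 0, 0, 0, 0, 0, -1, 0, 0, -2, 0, -1, 0, -1, 1, 0, 0, 0, 0, 0, 0],
   [0, 0, 0, 0, 0, 0, 0, 1, 1, 0, 0, 2, 0, 1, 1, 0, 0, -1, -1, 0, 3, 0, 0, 1, 0, -1, 0, 0],
   [0, 0, 0, 0, 0, 0, 0, -1, 0, 0, 0, -1, 0, -2, -2, 0, -3, 1, 0, 0, -3, 0, 0, 0, 0, 2, 0, 0]]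

def four (a b : Fin 28) : List (ℤ × List ℕ) :=
  mx (pr a).1 (mx (pr a).2 (mx (pr b).1 (mx (pr b).2 om)))

lemma hfour : ∀ a b, (∀ p ∈ four a b, p.2 = List.range 8) ∧ ((four a b).map Prod.fst).sum = B a b := by
  decide +kernel

lemma hPB : P * B = PB := by decide +kernel

lemma hQP : Q * P = 1 := by decide +kernel

def y (a : Fin 28) : ExteriorAlgebra ℤ V := x (pr a).1 * x (pr a).2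

lemma y_mul (a b : Fin 28) : y a * y b * ev om = B a b • w (List.range 8) := by
  simp only [y, mul_assoc, x_ev]
  exact (ev_top _ _ (hfour a b).1).trans (by rw [(hfour a b).2])

end Pool.Agent.H.MP_58c1a9_gt
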